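import Pool.Agent.Q331.Del.LB

/-!
# MP_f4335c_lc, Q1: for every `k ≥ 4` there is a metric space on which the delayed `k`-server
problem has competitiveness at least `k`

The space is the complete bipartite graph with parts of sizes `2` and `k - 1`, with its graph
metric (distance `1` between the parts, `2` inside a part); it has `k + 1` points.
-/

namespace Pool.Agent.Results.MP_f4335c_lc.LowerBoundK

open Q331.Del

/-- For every `k ≥ 4` there is a metric space `M` (with exactly `k + 1` points) such that from
every initial configuration with every choice of the initially frozen server the competitiveness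
of the delayed `k`-server problem on `M` is at least `k`. -/
theorem result : ∀ k : ℕ, 4 ≤ k → ∃ (M : Type) (_ : MetricSpace M), Nat.card M = k + 1 ∧
    ∀ s₀ : State M k, ((k : ℝ) : EReal) ≤ competitiveness (delayedA M k) s₀ := by
  intro k hk
  refine ⟨KV (k + 1), inferInstance, ?_, fun s₀ => le_competitiveness (by omega) s₀⟩
  rw [Nat.card_eq_fintype_card]
  exact Fintype.card_fin (k + 1)

end Pool.Agent.Results.MP_f4335c_lc.LowerBoundK
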